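import Mathlib

set_option autoImplicit false

namespace Pool.Agent.W278.QO

open Finset

/-- number of zeros modulo `d` -/
noncomputable def rz (f : MvPolynomial (Fin 3) ℤ) (d : ℕ) : ℕ :=
  Nat.card {x : Fin 3 → ZMod d // MvPolynomial.aeval x f = 0}

theorem rz_mul (f : MvPolynomial (Fin 3) ℤ) {a b : ℕ} (h : a.Coprime b) :
    rz f (a * b) = rz f a * rz f b := by
  unfold rz
  rw [← Nat.card_prod]
  let e := ZMod.chineseRemainder h
  let e1 : ZMod (a * b) →ₐ[ℤ] ZMod a := ((RingHom.fst _ _).comp e.toRingHom).toIntAlgHom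
  let e2 : ZMod (a * b) →ₐ[ℤ] ZMod b := ((RingHom.snd _ _).comp e.toRingHom).toIntAlgHom
  have h1 : ∀ x : Fin 3 → ZMod (a * b), MvPolynomial.aeval (fun i => (e (x i)).1) f =
      (e (MvPolynomial.aeval x f)).1 := by
    intro x
    exact (MvPolynomial.comp_aeval_apply (f := x) e1 f).symm
  have h2 : ∀ x : Fin 3 → ZMod (a * b), MvPolynomial.aeval (fun i => (e (x i)).2) f =
      (e (MvPolynomial.aeval x f)).2 := by
    intro x
    exact (MvPolynomial.comp_aeval_apply (f := x) e2 f).symm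
  apply Nat.card_congr
  refine ⟨fun x => (⟨fun i => (e (x.1 i)).1, ?_⟩, ⟨fun i => (e (x.1 i)).2, ?_⟩),
    fun y => ⟨fun i => e.symm (y.1.1 i, y.2.1 i), ?_⟩, ?_, ?_⟩
  · rw [h1, x.2, map_zero, Prod.fst_zero]
  · rw [h2, x.2, map_zero, Prod.snd_zero]
  · apply e.injective
    rw [map_zero]
    apply Prod.ext
    · rw [← h1]
      simpa using y.1.2
    · rw [← h2]
      simpa using y.2.2
  · intro x
    apply Subtype.ext
    funext i
    simp
  · intro y
    apply Prod.ext
    · apply Subtype.ext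
      funext i
      simp
    · apply Subtype.ext
      funext i
      simp

theorem rz_prime (f : MvPolynomial (Fin 3) ℤ) (hdeg : f.totalDegree ≤ 3) (s : Fin 3 →₀ ℕ)
    (p : ℕ) (hp : p.Prime) (hs : ¬ (p : ℤ) ∣ f.coeff s) : rz f p ≤ 3 * p ^ 2 := by
  have := Fact.mk hp
  set g := MvPolynomial.map (Int.castRingHom (ZMod p)) f with hg
  have hg0 : g ≠ 0 := by
    intro h0
    apply hs
    have h1 : g.coeff s = 0 := by rw [h0]; simp
    rw [hg, MvPolynomial.coeff_map] at h1
    exact (ZMod.intCast_zmod_eq_zero_iff_dvd _ _).1 (by simpa using h1)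
  have hgd : g.totalDegree ≤ 3 := le_trans (Finset.sup_mono (MvPolynomial.support_map_subset _ _)) hdeg
  have hSZ := MvPolynomial.schwartz_zippel_totalDegree hg0 (univ : Finset (ZMod p))
  rw [card_univ, ZMod.card] at hSZ
  have hc : rz f p = #{x ∈ Fintype.piFinset fun _ : Fin 3 => (univ : Finset (ZMod p)) |
      MvPolynomial.eval x g = 0} := by
    unfold rz
    rw [Nat.card_eq_fintype_card, Fintype.card_subtype]
    congr 1
    ext x
    simp only [mem_filter, mem_univ, true_and, Fintype.mem_piFinset, implies_true]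
    rw [hg, MvPolynomial.eval_map]
    rfl
  rw [← hc] at hSZ
  have hp0 : (0 : ℚ≥0) < p := by exact_mod_cast hp.pos
  rw [div_le_div_iff₀ (by positivity) hp0] at hSZ
  have h3 : (rz f p : ℚ≥0) * p ≤ 3 * (p : ℚ≥0) ^ 3 := by
    refine le_trans hSZ ?_
    gcongr
    exact_mod_cast hgd
  have h4 : rz f p * p ≤ 3 * p ^ 3 := by exact_mod_cast h3
  have h5 : rz f p * p ≤ (3 * p ^ 2) * p := by nlinarith
  exact Nat.le_of_mul_le_mul_right h5 hp.pos

theorem rz_triv (f : MvPolynomial (Fin 3) ℤ) (d : ℕ) (hd : 0 < d) : rz f d ≤ d ^ 3 := by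
  have : NeZero d := ⟨hd.ne'⟩
  unfold rz
  rw [Nat.card_eq_fintype_card]
  refine le_trans (Fintype.card_subtype_le _) ?_
  simp

theorem rz_bound (f : MvPolynomial (Fin 3) ℤ) (hdeg : f.totalDegree ≤ 3) (s : Fin 3 →₀ ℕ) :
    ∀ d : ℕ, Squarefree d →
      rz f d ≤ Int.gcd d (f.coeff s) * 3 ^ d.primeFactors.card * d ^ 2 := by
  intro d
  induction d using Nat.recOnPosPrimePosCoprime with
  | zero => intro h; exact absurd h not_squarefree_zero
  | one =>
    intro _
    have := rz_triv f 1 one_pos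
    simpa using this
  | prime_pow p n hp hn =>
    intro h
    have hn1 : n = 1 := by
      rcases Nat.squarefree_pow_iff hp.one_lt.ne' hn.ne' |>.1 h with ⟨_, h1⟩
      exact h1
    subst hn1
    rw [pow_one] at h ⊢
    rw [hp.primeFactors, card_singleton, pow_one]
    by_cases hs : (p : ℤ) ∣ f.coeff s
    · have h1 : Int.gcd p (f.coeff s) = p := by
        rw [Int.gcd_eq_natAbs_left hs] <;> simp
      rw [h1]
      have h2 := rz_triv f p hp.pos
      nlinarith [Nat.zero_le (p ^ 3)]
    · have h1 : 1 ≤ Int.gcd p (f.coeff s) := by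
        apply Nat.succ_le_of_lt
        apply Int.gcd_pos_of_ne_zero_left
        exact_mod_cast hp.ne_zero
      have h2 := rz_prime f hdeg s p hp hs
      nlinarith [Nat.zero_le (p ^ 2)]
  | coprime a b ha hb hab iha ihb =>
    intro h
    have h1 := iha (h.squarefree_of_dvd (dvd_mul_right a b))
    have h2 := ihb (h.squarefree_of_dvd (dvd_mul_left b a))
    rw [rz_mul f hab, hab.primeFactors_mul, card_union_of_disjoint hab.disjoint_primeFactors]
    have h3 : Int.gcd ((a * b : ℕ) : ℤ) (f.coeff s) = Int.gcd a (f.coeff s) * Int.gcd b (f.coeff s) := by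
      simp only [Int.gcd, Int.natAbs_natCast]
      rw [Nat.gcd_comm, hab.gcd_mul, Nat.gcd_comm, Nat.gcd_comm b]
    rw [h3]
    calc rz f a * rz f b ≤ (Int.gcd a (f.coeff s) * 3 ^ a.primeFactors.card * a ^ 2) *
        (Int.gcd b (f.coeff s) * 3 ^ b.primeFactors.card * b ^ 2) := Nat.mul_le_mul h1 h2
      _ = _ := by ring

end Pool.Agent.W278.QO
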