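import Pool.Agent.W978.QO.Stm
import Pool.Agent.W278.QO.RhoGen

set_option autoImplicit false

namespace Pool.Agent.W278.QO

open Finset Pool.Agent.W978.QO Pool.Agent.W978.QN

/-- the determinant polynomial -/
noncomputable def dp (b : Fin 3 → Fin 3 → Fin 3 → ℤ) : MvPolynomial (Fin 3) ℤ :=
  (Matrix.of (mp b (fun i => (MvPolynomial.X i : MvPolynomial (Fin 3) ℤ)))).det

theorem dp_aeval {R : Type} [CommRing R] (b : Fin 3 → Fin 3 → Fin 3 → ℤ) (x : Fin 3 → R) :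
    MvPolynomial.aeval x (dp b) = (Matrix.of (mp b x)).det := by
  unfold dp
  rw [AlgHom.map_det]
  congr 1
  ext k j
  simp [mp]

theorem dp_entry (b : Fin 3 → Fin 3 → Fin 3 → ℤ) (k j : Fin 3) :
    (mp b (fun i => (MvPolynomial.X i : MvPolynomial (Fin 3) ℤ)) k j).totalDegree ≤ 1 := by
  unfold mp
  apply MvPolynomial.totalDegree_finsetSum_le
  intro i _
  have h1 : ((b i j k : ℤ) : MvPolynomial (Fin 3) ℤ) = MvPolynomial.C (b i j k) := by
    simp
  rw [h1]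
  refine le_trans (MvPolynomial.totalDegree_mul _ _) ?_
  rw [MvPolynomial.totalDegree_C, MvPolynomial.totalDegree_X]

theorem dp_deg (b : Fin 3 → Fin 3 → Fin 3 → ℤ) : (dp b).totalDegree ≤ 3 := by
  unfold dp
  have h3 : ∀ e1 e2 e3 : MvPolynomial (Fin 3) ℤ, e1.totalDegree ≤ 1 → e2.totalDegree ≤ 1 →
      e3.totalDegree ≤ 1 → (e1 * e2 * e3).totalDegree ≤ 3 := by
    intro e1 e2 e3 a1 a2 a3
    have b1 := MvPolynomial.totalDegree_mul (e1 * e2) e3
    have b2 := MvPolynomial.totalDegree_mul e1 e2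
    omega
  rw [Matrix.det_fin_three]
  have hs : ∀ e1 e2 : MvPolynomial (Fin 3) ℤ, e1.totalDegree ≤ 3 → e2.totalDegree ≤ 3 →
      (e1 - e2).totalDegree ≤ 3 := fun e1 e2 a1 a2 =>
    le_trans (MvPolynomial.totalDegree_sub _ _) (max_le a1 a2)
  have ha : ∀ e1 e2 : MvPolynomial (Fin 3) ℤ, e1.totalDegree ≤ 3 → e2.totalDegree ≤ 3 →
      (e1 + e2).totalDegree ≤ 3 := fun e1 e2 a1 a2 =>
    le_trans (MvPolynomial.totalDegree_add _ _) (max_le a1 a2)
  have he : ∀ k j : Fin 3, (Matrix.of (mp b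
      (fun i => (MvPolynomial.X i : MvPolynomial (Fin 3) ℤ))) k j).totalDegree ≤ 1 :=
    fun k j => dp_entry b k j
  refine hs _ _ (ha _ _ (ha _ _ (hs _ _ (hs _ _ ?_ ?_) ?_) ?_) ?_) ?_ <;>
    exact h3 _ _ _ (he _ _) (he _ _) (he _ _)

theorem rho : S_RHO := by
  rintro b ⟨p, hp⟩
  have hne : dp b ≠ 0 := by
    intro h0
    apply hp
    rw [← dp_aeval, h0, map_zero]
  obtain ⟨s, hs⟩ := MvPolynomial.ne_zero_iff.1 hne
  refine ⟨((dp b).coeff s).natAbs, ?_, ?_⟩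
  · exact_mod_cast Int.natAbs_pos.2 hs
  intro d hd hsq
  have h1 := rz_bound (dp b) (dp_deg b) s d hsq
  have h2 : Nat.card {x : Fin 3 → ZMod d // (Matrix.of (mp b x)).det = 0} = rz (dp b) d := by
    unfold rz
    simp_rw [dp_aeval]
  have h3 : Int.gcd d ((dp b).coeff s) ≤ ((dp b).coeff s).natAbs :=
    Nat.gcd_le_right _ (Int.natAbs_pos.2 hs)
  rw [h2]
  have h4 : rz (dp b) d ≤ ((dp b).coeff s).natAbs * 3 ^ d.primeFactors.card * d ^ 2 :=
    le_trans h1 (by gcongr)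
  exact_mod_cast h4

end Pool.Agent.W278.QO
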